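import Pool.Agent.Helper14.W4.Lk3

set_option autoImplicit false

/-!
# The elements with prescribed double residues
-/

noncomputable section

open Polynomial TensorProduct
open scoped Classical

namespace Helper14.W4

open Helper14.Gon

universe u v w

section
variable {F : Type u} [Field F]

/-- the class of `{x}` in `B_2(F)` -/
def bb (x : P1 F) : Cx 2 0 F := PB 2 0 (cl 2 x) (u0 F)

/-- the symbol `v ∧ v'` -/
def W2 : Additive Fˣ →+ Additive Fˣ →+ Tx 2 F :=
  AddMonoidHom.mk' (fun v => AddMonoidHom.mk' (fun v' => wT 1 v (wT 0 v' (u0 F)))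
    (fun a b => by rw [wT_add, LinearMap.add_apply, map_add]))
    (fun a b => by
      refine AddMonoidHom.ext fun v' => ?_
      change wT 1 (a + b) (wT 0 v' (u0 F)) = wT 1 a (wT 0 v' (u0 F)) + wT 1 b (wT 0 v' (u0 F))
      rw [wT_add]; rfl)

lemma W2_apply (v v' : Additive Fˣ) : W2 v v' = wT 1 v (wT 0 v' (u0 F)) := rfl

lemma W2_self (v : Additive Fˣ) : W2 v v = 0 := by
  rw [W2_apply]; exact wT_self 0 v _

lemma W2_swap (v v' : Additive Fˣ) : W2 v v' = - W2 v' v := by
  have h := W2_self (v + v')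
  simp only [map_add, AddMonoidHom.add_apply, W2_self] at h
  rw [zero_add, add_zero] at h
  exact eq_neg_of_add_eq_zero_right h

lemma W2_m1 (v : Additive Fˣ) : W2 (lg (-1 : F)) v = 0 := by
  rw [W2_apply, wT_neg_one]; rfl

lemma W2_m1' (v : Additive Fˣ) : W2 v (lg (-1 : F)) = 0 := by
  rw [W2_swap, W2_m1, neg_zero]

lemma dT_bb (x : P1 F) : dT 0 (bb x) = W2 (l1P x) (lgP x) := dT_PB 0 x _

lemma bb_zero : bb (some 0 : P1 F) = 0 := by
  rw [bb, cl_zero 1, map_zero]; rfl

lemma bb_inf : bb (none : P1 F) = 0 := by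
  rw [bb, cl_inf 1, map_zero]; rfl

lemma lg_neg' {x : F} (hx : x ≠ 0) : lg (-x) = lg (-1) + lg x := by
  rw [← lg_mul (by simp) hx, neg_one_mul]

/-- the symbol identity behind the five-term relation -/
lemma W2_five (A B D p q r : Additive Fˣ) :
    W2 (r + D - (p + B)) (A - p - (B - q)) + W2 (D - q) (B - q) - W2 (D - p) (A - p) -
      W2 (lg (-1) + A - r) (B - r) - W2 (lg (-1) + r - p) (q - p) = 0 := by
  simp only [map_add, map_sub, AddMonoidHom.add_apply, AddMonoidHom.sub_apply, W2_m1, W2_self]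
  rw [W2_swap B A, W2_swap r A, W2_swap q B, W2_swap p B]
  abel

lemma dT_five (m f2 f1 f3 c' : P1 F) : dT 0 (bb m + bb f2 - bb f1 - bb f3 - bb c') =
    W2 (l1P m) (lgP m) + W2 (l1P f2) (lgP f2) - W2 (l1P f1) (lgP f1) - W2 (l1P f3) (lgP f3) -
      W2 (l1P c') (lgP c') := by
  rw [map_sub, map_sub, map_sub, map_add, dT_bb, dT_bb, dT_bb, dT_bb, dT_bb]

/-- change of the last factor -/
lemma swapT {j : ℕ} (ω : Tx j F) (b : B 2 F) :
    mapT 2 ((LinearMap.toSpanSingleton ℚ (Tx j F) ω) ∘ₗ (e0 F)) (PB 2 0 b (u0 F)) = PB 2 j b ω := by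
  rw [mapT_PB]
  change PB 2 j b (e0 F (u0 F) • ω) = _
  rw [u0, e0_dm, one_smul]

end

section
variable {K : Type u} [Field K]

lemma sC_bb (c : K) (x : P1 (RatFunc K)) : sC c 0 0 (bb x) = bb (spec c x) := by
  have e := sC_PB c 0 0 x (u0 (RatFunc K))
  rw [bb, bb]
  refine e.trans ?_
  congr 1
  rw [u0, sT_dm, u0]
  congr 1
  funext i
  exact i.elim0

lemma rC_bb (x : K) : rC 0 0 (bb (some x)) = bb (some (RatFunc.C x : RatFunc K)) := by
  have e := rC_PB 0 0 (some x) (u0 K)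
  rw [bb, bb]
  refine e.trans ?_
  congr 1
  rw [u0, rT_dm, u0]
  congr 1
  funext i
  exact i.elim0

/-- a combination with vanishing differential is determined by one value -/
lemma bb_const (c : K) (β : Cx 2 0 (RatFunc K)) (h : dT 0 β = 0) : β = rC 0 0 (sC c 0 0 β) :=
  (const_cyc c 0 β h).symm

lemma bb_inv (x : K) : bb (some x) + bb (some x⁻¹) = 0 := by
  set t : RatFunc K := RatFunc.X with ht
  have ht0 : t ≠ 0 := RatFunc.X_ne_zero
  have hspec : ∀ a : K, spec a (some t) = some a := fun a => by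
    have := spec_poly a (Polynomial.X : K[X])
    rw [RatFunc.algebraMap_X] at this
    simpa using this
  have h1 : dT 0 (bb (some t) + bb (some t⁻¹)) = 0 := by
    have ht1 : (1 : RatFunc K) - t ≠ 0 := by
      intro h
      have := spec_one_sub (hspec 0)
      rw [h] at this
      simp at this
    rw [map_add, dT_bb, dT_bb, l1P_some, l1P_some, lgP_some, lgP_some]
    have e : 1 - t⁻¹ = -(1 - t) / t := by field_simp; ring
    rw [e, lg_div (neg_ne_zero.2 ht1) ht0, lg_neg' ht1, lg_inv]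
    simp only [map_add, map_sub, map_neg, AddMonoidHom.add_apply, AddMonoidHom.sub_apply, W2_m1,
      W2_self]
    abel
  have h2 := bb_const 0 _ h1
  rw [map_add, sC_bb, sC_bb, hspec, sp_inv_zero ht0 (hspec 0), bb_zero, bb_inf, add_zero,
    map_zero] at h2
  have h3 := congrArg (sC x 0 0) h2
  rw [map_add, map_zero, sC_bb, sC_bb, hspec] at h3
  by_cases hx : x = 0
  · subst hx; rw [inv_zero, bb_zero, add_zero]
  · rwa [sp_inv_some (hspec x) hx] at h3

lemma bb_one : bb (some (1 : K)) = 0 := by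
  have h := bb_inv (1 : K)
  rw [inv_one, ← two_smul ℚ] at h
  exact (smul_eq_zero.1 h).resolve_left two_ne_zero

lemma bb_sub (x : K) : bb (some x) + bb (some (1 - x)) = 0 := by
  set t : RatFunc K := RatFunc.X with ht
  have ht0 : t ≠ 0 := RatFunc.X_ne_zero
  have hspec : ∀ a : K, spec a (some t) = some a := fun a => by
    have := spec_poly a (Polynomial.X : K[X])
    rw [RatFunc.algebraMap_X] at this
    simpa using this
  have h1 : dT 0 (bb (some t) + bb (some (1 - t))) = 0 := by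
    rw [map_add, dT_bb, dT_bb, l1P_some, l1P_some, lgP_some, lgP_some, sub_sub_cancel, W2_swap]
    abel
  have h2 := bb_const 0 _ h1
  rw [map_add, sC_bb, sC_bb, hspec, spec_one_sub (hspec 0), bb_zero, sub_zero, bb_one, add_zero,
    map_zero] at h2
  have h3 := congrArg (sC x 0 0) h2
  rwa [map_add, map_zero, sC_bb, sC_bb, hspec, spec_one_sub (hspec x)] at h3

/-- the specialisation argument -/
lemma bb_rel_of (b x y : K) (m f2 f1 f3 c' : P1 (RatFunc K))
    (key : dT 0 (bb m + bb f2 - bb f1 - bb f3 - bb c') = 0)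
    (s4 : spec b m = none) (s2 : spec b f2 = some 0) (s1 : spec b f1 = some x)
    (s3 : spec b f3 = some 0) (s5 : spec b c' = some y) (hxy : bb (some x) + bb (some y) = 0) :
    bb m + bb f2 - bb f1 - bb f3 = bb c' := by
  have h2 := bb_const b _ key
  have h5 : sC b 0 0 (bb m + bb f2 - bb f1 - bb f3 - bb c') = 0 := by
    rw [map_sub, map_sub, map_sub, map_add, sC_bb, sC_bb, sC_bb, sC_bb, sC_bb, s1, s2, s3, s4, s5,
      bb_zero, bb_inf]
    have e : (0 : Cx 2 0 K) + 0 - bb (some x) - 0 - bb (some y) = -(bb (some x) + bb (some y)) := by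
      abel
    rw [e, hxy, neg_zero]
  rw [h5, map_zero] at h2
  exact sub_eq_zero.1 h2

/-- the five-term relation with two parameters -/
lemma bb_five {a b d : K} (hab : a ≠ b) (hda : d ≠ a) (hdb : d ≠ b) :
    bb (some ((RatFunc.X - RatFunc.C a) / RatFunc.C (d - a) /
        ((RatFunc.X - RatFunc.C b) / RatFunc.C (d - b)))) +
      bb (some ((RatFunc.X - RatFunc.C b) / RatFunc.C (d - b))) -
      bb (some ((RatFunc.X - RatFunc.C a) / RatFunc.C (d - a))) -
      bb (some ((RatFunc.X - RatFunc.C b) / RatFunc.C (a - b))) =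
    bb (some (RatFunc.C ((d - b) / (d - a)) : RatFunc K)) := by
  have hda' : d - a ≠ 0 := sub_ne_zero.2 hda
  have hdb' : d - b ≠ 0 := sub_ne_zero.2 hdb
  have hab' : a - b ≠ 0 := sub_ne_zero.2 hab
  have cda : (RatFunc.C (d - a) : RatFunc K) ≠ 0 := (_root_.map_ne_zero RatFunc.C).2 hda'
  have cdb : (RatFunc.C (d - b) : RatFunc K) ≠ 0 := (_root_.map_ne_zero RatFunc.C).2 hdb'
  have cab : (RatFunc.C (a - b) : RatFunc K) ≠ 0 := (_root_.map_ne_zero RatFunc.C).2 hab'
  have hX : ∀ x : K, (RatFunc.X - RatFunc.C x : RatFunc K) ≠ 0 := fun x => by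
    rw [← RatFunc.algebraMap_X, ← RatFunc.algebraMap_C, ← map_sub]
    exact RatFunc.algebraMap_ne_zero (X_sub_C_ne_zero x)
  have sX : ∀ x c : K, spec c (some (RatFunc.X - RatFunc.C x : RatFunc K)) = some (c - x) :=
    fun x c => by
      have := spec_poly c (Polynomial.X - Polynomial.C x : K[X])
      rw [map_sub, RatFunc.algebraMap_X, RatFunc.algebraMap_C] at this
      simpa using this
  have hD : (RatFunc.C d - RatFunc.X : RatFunc K) ≠ 0 := by
    rw [← neg_sub]; exact neg_ne_zero.2 (hX d)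
  have ec : (RatFunc.C ((d - b) / (d - a)) : RatFunc K) = RatFunc.C (d - b) / RatFunc.C (d - a) :=
    map_div₀ _ _ _
  have e1 : (1 : RatFunc K) - (RatFunc.X - RatFunc.C a) / RatFunc.C (d - a) =
      (RatFunc.C d - RatFunc.X) / RatFunc.C (d - a) := by
    rw [eq_div_iff cda, sub_mul, one_mul, div_mul_cancel₀ _ cda, map_sub]; ring
  have e2 : (1 : RatFunc K) - (RatFunc.X - RatFunc.C b) / RatFunc.C (d - b) =
      (RatFunc.C d - RatFunc.X) / RatFunc.C (d - b) := by
    rw [eq_div_iff cdb, sub_mul, one_mul, div_mul_cancel₀ _ cdb, map_sub]; ring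
  have e3 : (1 : RatFunc K) - (RatFunc.X - RatFunc.C b) / RatFunc.C (a - b) =
      -(RatFunc.X - RatFunc.C a) / RatFunc.C (a - b) := by
    rw [eq_div_iff cab, sub_mul, one_mul, div_mul_cancel₀ _ cab, map_sub]; ring
  have e4 : (1 : RatFunc K) - (RatFunc.X - RatFunc.C a) / RatFunc.C (d - a) /
        ((RatFunc.X - RatFunc.C b) / RatFunc.C (d - b)) =
      (RatFunc.C (a - b) * (RatFunc.C d - RatFunc.X)) /
        (RatFunc.C (d - a) * (RatFunc.X - RatFunc.C b)) := by
    have := hX b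
    rw [div_div_div_eq, eq_div_iff (mul_ne_zero cda this), sub_mul, one_mul,
      div_mul_cancel₀ _ (mul_ne_zero cda this), map_sub, map_sub, map_sub]
    ring
  have e5 : (1 : RatFunc K) - RatFunc.C (d - b) / RatFunc.C (d - a) =
      -RatFunc.C (a - b) / RatFunc.C (d - a) := by
    rw [eq_div_iff cda, sub_mul, one_mul, div_mul_cancel₀ _ cda, map_sub, map_sub, map_sub]; ring
  have key : dT 0 (bb (some ((RatFunc.X - RatFunc.C a) / RatFunc.C (d - a) /
        ((RatFunc.X - RatFunc.C b) / RatFunc.C (d - b)))) +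
      bb (some ((RatFunc.X - RatFunc.C b) / RatFunc.C (d - b))) -
      bb (some ((RatFunc.X - RatFunc.C a) / RatFunc.C (d - a))) -
      bb (some ((RatFunc.X - RatFunc.C b) / RatFunc.C (a - b))) -
      bb (some (RatFunc.C ((d - b) / (d - a)) : RatFunc K))) = 0 := by
    rw [dT_five]
    simp only [l1P_some, lgP_some]
    rw [ec, e1, e2, e3, e4, e5, lg_div (mul_ne_zero cab hD) (mul_ne_zero cda (hX b)),
      lg_mul cab hD, lg_mul cda (hX b), lg_div (div_ne_zero (hX a) cda) (div_ne_zero (hX b) cdb),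
      lg_div (hX a) cda, lg_div (hX b) cdb, lg_div (hX b) cab, lg_div hD cda, lg_div hD cdb,
      lg_div (neg_ne_zero.2 (hX a)) cab, lg_div (neg_ne_zero.2 cab) cda, lg_div cdb cda,
      lg_neg' (hX a), lg_neg' cab]
    exact W2_five _ _ _ _ _ _
  have s1 : spec b (some ((RatFunc.X - RatFunc.C a) / RatFunc.C (d - a) : RatFunc K)) =
      some ((b - a) / (d - a)) := sp_div_some (sX a b) (spec_C b _) hda'
  have s2 : spec b (some ((RatFunc.X - RatFunc.C b) / RatFunc.C (d - b) : RatFunc K)) =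
      some 0 := by
    rw [sp_div_some (sX b b) (spec_C b _) hdb', sub_self, zero_div]
  have s3 : spec b (some ((RatFunc.X - RatFunc.C b) / RatFunc.C (a - b) : RatFunc K)) =
      some 0 := by
    rw [sp_div_some (sX b b) (spec_C b _) hab', sub_self, zero_div]
  have s4 : spec b (some ((RatFunc.X - RatFunc.C a) / RatFunc.C (d - a) /
        ((RatFunc.X - RatFunc.C b) / RatFunc.C (d - b)) : RatFunc K)) = none :=
    sp_div_zero s1 (div_ne_zero (sub_ne_zero.2 hab.symm) hda') (div_ne_zero (hX b) cdb) s2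
  refine bb_rel_of b _ _ _ _ _ _ _ key s4 s2 s1 s3 (spec_C b _) ?_
  have := bb_sub ((b - a) / (d - a))
  have e : 1 - (b - a) / (d - a) = (d - b) / (d - a) := by
    rw [eq_div_iff hda', sub_mul, one_mul, div_mul_cancel₀ _ hda']; ring
  rwa [e] at this

lemma dC_GG {F : Type u} [Field F] (x : P1 F) (g : Additive Fˣ) :
    dC 0 1 (GG 3 x g) = PB 2 2 (cl 2 x) (W2 (lgP x) g) := dC_PB 0 1 x _

lemma swapT_rel {F : Type u} [Field F] (m f2 f1 f3 c : P1 F)
    (h : bb m + bb f2 - bb f1 - bb f3 = bb c) (ω : Tx 2 F) :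
    PB 2 2 (cl 2 m) ω + PB 2 2 (cl 2 f2) ω - PB 2 2 (cl 2 f1) ω - PB 2 2 (cl 2 f3) ω =
      PB 2 2 (cl 2 c) ω := by
  have h2 := congrArg (mapT 2 ((LinearMap.toSpanSingleton ℚ (Tx 2 F) ω) ∘ₗ (e0 F))) h
  rw [map_sub, map_sub, map_add] at h2
  simp only [bb, swapT] at h2
  exact h2

lemma lin5 {M : Type v} {N : Type w} [AddCommGroup M] [Module ℚ M] [AddCommGroup N] [Module ℚ N]
    (f : M →ₗ[ℚ] N) (x1 x2 x3 x4 x5 : M) :
    f (-(-x1 + x2 + x3 - x4 + x5)) = -(-f x1 + f x2 + f x3 - f x4 + f x5) := by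
  simp only [map_neg, map_add, map_sub]

/-- the differential of the star element -/
lemma star_dC {F : Type u} [Field F] (m f2 f1 f3 c : P1 F) (κ : Additive Fˣ)
    (h : bb m + bb f2 - bb f1 - bb f3 = bb c) (hm : lgP m = lgP f1 - lgP f2)
    (h3 : lgP f3 = lgP f2 - κ) :
    dC 0 1 (-(-GG 3 m (lgP f1) + GG 3 f1 (lgP f1) + GG 3 f2 (lgP f1) - GG 3 f3 (lgP f1) +
      GG 3 f1 (lgP f2))) =
    PB 2 2 (cl 2 c) (W2 (lgP f1) (lgP f2)) + PB 2 2 (cl 2 f3) (W2 (lgP f1) κ) := by
  have a1 : W2 (lgP m) (lgP f1) = W2 (lgP f1) (lgP f2) := by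
    rw [hm, map_sub, AddMonoidHom.sub_apply, W2_self, W2_swap (lgP f2), zero_sub, neg_neg]
  have a2 : W2 (lgP f2) (lgP f1) = - W2 (lgP f1) (lgP f2) := W2_swap _ _
  have a3 : W2 (lgP f3) (lgP f1) = - W2 (lgP f1) (lgP f2) + W2 (lgP f1) κ := by
    rw [h3, map_sub, AddMonoidHom.sub_apply, a2, W2_swap κ, sub_neg_eq_add]
  rw [lin5, dC_GG, dC_GG, dC_GG, dC_GG, dC_GG, a1, a2, a3, W2_self]
  generalize W2 (lgP f1) (lgP f2) = w
  generalize W2 (lgP f1) κ = w'
  rw [← swapT_rel m f2 f1 f3 c h w, LinearMap.map_zero, LinearMap.map_neg, LinearMap.map_add,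
    LinearMap.map_neg]
  abel

/-- double contraction of `{x} ⊗ u ∧ v` -/
lemma ct_ct_PB (η θ : Additive (RatFunc K)ˣ →+ ℚ) (b : B 2 (RatFunc K))
    (u v : Additive (RatFunc K)ˣ) :
    ct 2 0 η (ct 2 1 θ (PB 2 2 b (wT 1 u (wT 0 v (u0 _))))) =
      (θ u * η v - θ v * η u) • PB 2 0 b (u0 _) := by
  rw [ct_PB, ct_PB, ctT_wT, ctT_wT_zero, map_smul, map_sub, map_smul, map_smul, ctT_wT_zero,
    ctT_wT_zero, smul_smul, smul_smul, ← sub_smul, map_smul]

lemma ifs (P Q R T : Prop) : (if P then (1 : ℚ) else 0) * (if Q then 1 else 0) -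
    (if R then 1 else 0) * (if T then 1 else 0) =
      (if P ∧ Q then (1 : ℚ) else 0) - (if T ∧ R then 1 else 0) := by
  by_cases hP : P <;> by_cases hQ : Q <;> by_cases hR : R <;> by_cases hT : T <;>
    simp [hP, hQ, hR, hT]

theorem star_kappa [IsAlgClosed K] (a b : K) (hab : a ≠ b) (y : Cx 2 0 K) :
    ∃ W : Cx 3 1 (RatFunc K), ∀ a' b' : K,
      ct 2 0 (va b') (ct 2 1 (va a') (dC 0 1 W)) =
        (((if a = a' ∧ b = b' then (1 : ℚ) else 0) - (if a = b' ∧ b = a' then 1 else 0)) •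
          rC 0 0 y) := by
  induction y using Cx_ind with
  | h0 => exact ⟨0, fun a' b' => by simp⟩
  | hadd y y' hy hy' =>
    obtain ⟨W, hW⟩ := hy
    obtain ⟨W', hW'⟩ := hy'
    refine ⟨W + W', fun a' b' => ?_⟩
    rw [map_add, map_add, map_add, hW, hW', map_add, smul_add]
  | h1 x ω =>
    suffices h : ∃ W : Cx 3 1 (RatFunc K), ∀ a' b' : K,
      ct 2 0 (va b') (ct 2 1 (va a') (dC 0 1 W)) =
        (((if a = a' ∧ b = b' then (1 : ℚ) else 0) - (if a = b' ∧ b = a' then 1 else 0)) •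
          rC 0 0 (bb x)) by
      obtain ⟨W, hW⟩ := h
      refine ⟨e0 K ω • W, fun a' b' => ?_⟩
      have e : PB 2 0 (cl 2 x) ω = e0 K ω • bb x := by
        conv_lhs => rw [← e0_inj ω, map_smul]
        rfl
      rw [map_smul, map_smul, map_smul, hW, e, map_smul, smul_comm]
    by_cases hx : bb x = 0
    · exact ⟨0, fun a' b' => by rw [hx]; simp⟩
    rcases x with _ | c
    · exact absurd bb_inf hx
    by_cases hc0 : c = 0
    · subst hc0; exact absurd bb_zero hx
    by_cases hc1 : c = 1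
    · subst hc1; exact absurd bb_one hx
    have h1c : 1 - c ≠ 0 := sub_ne_zero.2 (Ne.symm hc1)
    set d : K := (b - c * a) / (1 - c) with hd
    have hd1 : d * (1 - c) = b - c * a := by rw [hd, div_mul_cancel₀ _ h1c]
    have hda : d ≠ a := by
      intro h
      rw [h] at hd1
      apply hab
      linear_combination hd1
    have hdb : d ≠ b := by
      intro h
      rw [h] at hd1
      have : c * (a - b) = 0 := by linear_combination hd1
      rcases mul_eq_zero.1 this with h | h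
      · exact hc0 h
      · exact hab (sub_eq_zero.1 h)
    have hda' : d - a ≠ 0 := sub_ne_zero.2 hda
    have hdb' : d - b ≠ 0 := sub_ne_zero.2 hdb
    have hab' : a - b ≠ 0 := sub_ne_zero.2 hab
    have hc : (d - b) / (d - a) = c := by
      rw [div_eq_iff hda']; linear_combination hd1
    have five := bb_five hab hda hdb
    rw [hc] at five
    have cda : (RatFunc.C (d - a) : RatFunc K) ≠ 0 := (_root_.map_ne_zero RatFunc.C).2 hda'
    have cdb : (RatFunc.C (d - b) : RatFunc K) ≠ 0 := (_root_.map_ne_zero RatFunc.C).2 hdb'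
    have cab : (RatFunc.C (a - b) : RatFunc K) ≠ 0 := (_root_.map_ne_zero RatFunc.C).2 hab'
    have hX : ∀ x : K, (RatFunc.X - RatFunc.C x : RatFunc K) ≠ 0 := fun x => by
      rw [← RatFunc.algebraMap_X, ← RatFunc.algebraMap_C, ← map_sub]
      exact RatFunc.algebraMap_ne_zero (X_sub_C_ne_zero x)
    have hκ : ∀ x y : K, x ≠ 0 → y ≠ 0 → ∀ a' : K,
        va a' (lg (RatFunc.C x) - lg (RatFunc.C y) : Additive (RatFunc K)ˣ) = 0 := by
      intro x y _ _ a'
      rw [map_sub, va, co_apply, co_apply, dv_C, dv_C]; simp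
    obtain ⟨W, hm⟩ : ∃ W, dC 0 1 W = _ := ⟨_, star_dC _ _ _ _ _ (lg (RatFunc.C (a - b)) - lg (RatFunc.C (d - b)) :
      Additive (RatFunc K)ˣ) five
      (by
        rw [lgP_some, lgP_some, lgP_some, lg_div (div_ne_zero (hX a) cda) (div_ne_zero (hX b) cdb)])
      (by
        rw [lgP_some, lgP_some, lg_div (hX b) cdb, lg_div (hX b) cab]; abel)⟩
    refine ⟨W, fun a' b' => ?_⟩
    rw [hm, map_add, map_add]
    rw [W2_apply, W2_apply, ct_ct_PB, ct_ct_PB, hκ _ _ hab' hdb', hκ _ _ hab' hdb']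
    have hv : ∀ x y z : K, y ≠ 0 → va z (lgP (some ((RatFunc.X - RatFunc.C x) / RatFunc.C y :
        RatFunc K))) = if x = z then 1 else 0 := by
      intro x y z hy
      have cy : (RatFunc.C y : RatFunc K) ≠ 0 := (_root_.map_ne_zero RatFunc.C).2 hy
      rw [lgP_some, lg_div (hX x) cy, map_sub]
      change va z (ee x) - co dv z (lg (RatFunc.C y)) = _
      rw [va_ee, co_apply, dv_C]; simp
    rw [hv _ _ _ hda', hv _ _ _ hda', hv _ _ _ hdb', hv _ _ _ hdb', rC_bb]
    simp only [mul_zero, zero_mul, sub_self, zero_smul, add_zero]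
    change _ • bb _ = _
    congr 1
    exact ifs _ _ _ _

end

end Helper14.W4
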